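import Pool.Agent.Q215.AbE

/-!
# Almost Borel embeddings from measure-wise embeddings: negative answer for every `d ≥ 1`

There are topological `ℤ^d` systems `X` and `Y` such that every invariant probability measure
of `Y` is realized as an invariant measure on `X`, but there is no almost Borel embedding of `Y`
into `X`; there is not even a (not necessarily injective) morphism to `X` from a full
invariant Borel subset of `Y`.
-/

open Q215.Ab

namespace Pool.Agent.Results.MP_93a5dd_an.NoAlmostBorelEmbedding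

theorem result (d : ℕ) (hd : 1 ≤ d) :
    ∃ X Y : TopSys d, (∀ μ ∈ Prob Y, Realized X Y μ) ∧ ¬ AlmostBorelEmbeds Y X ∧
      ¬ ∃ Y₀ : Set Y.carrier, InvBorel Y₀ ∧ IsFull Y₀ ∧
        ∃ ρ : Y₀ → X.carrier, IsMorphism ρ := by
  refine ⟨XS d hd, YS d hd, fun μ hμ => realized d hd μ hμ, ?_, ?_⟩
  · rintro ⟨Y₀, h1, h2, ρ, h3, -⟩
    exact no_morphism d hd Y₀ h1 h2 ρ h3
  · rintro ⟨Y₀, h1, h2, ρ, h3⟩
    exact no_morphism d hd Y₀ h1 h2 ρ h3

end Pool.Agent.Results.MP_93a5dd_an.NoAlmostBorelEmbedding
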